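import Pool.Agent.helper67.DL.SpecX

/-! # Project dl, module X09: the manifold structure -/

namespace Pool.Agent.DL

open Matrix Complex
open scoped ComplexOrder Manifold ContDiff

theorem X09_sq (w : ℂ) (h : w ^ 2 = -1) : w.re = 0 := by
  have h1 : (w - I) * (w + I) = 0 := by
    have : (w - I) * (w + I) = w ^ 2 - I ^ 2 := by ring
    rw [this, h, I_sq]; ring
  rcases mul_eq_zero.mp h1 with h2 | h2
  · rw [sub_eq_zero.mp h2]; simp
  · rw [eq_neg_of_add_eq_zero_left h2]; simp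

theorem X09_four (w : ℂ) (hw : |w.im| < w.re) : w ^ 4 ≠ -1 := by
  intro h
  have h1 : (w ^ 2) ^ 2 = -1 := by rw [← h]; ring
  have h2 := X09_sq _ h1
  have h3 : (w ^ 2).re = w.re ^ 2 - w.im ^ 2 := by
    rw [sq, mul_re]; ring
  rw [h3] at h2
  have h4 : w.im ^ 2 < w.re ^ 2 := by
    apply sq_lt_sq'
    · have := (abs_lt.mp hw).1; linarith
    · exact (abs_lt.mp hw).2
  linarith

theorem X09_gS1 (c : ℂ) (hc : c ^ 2 = 1) : gS c ⊆ uZ := by
  rintro ⟨p, hp⟩ ⟨h1, h2⟩ h3
  rcases hp with ⟨z, y, rfl, h⟩ | ⟨y, rfl, h⟩ | ⟨z, rfl, h⟩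
  · exact absurd h3 (OnePoint.coe_ne_infty _)
  · have h5 : (y / c) ^ 2 = -1 := by
      rw [div_pow, hc, div_one]
      exact eq_neg_of_add_eq_zero_right h
    have h6 := X09_sq _ h5
    have h7 : fv (OnePoint.some y) = y := rfl
    simp only [h7] at h2
    rw [h6] at h2
    exact lt_irrefl _ h2
  · exact absurd h3 (OnePoint.coe_ne_infty _)

theorem X09_gS2 (c : ℂ) (hc4 : c ^ 4 = 1) (hc : c ^ 2 ≠ 1) : gS c ⊆ uN := by
  have hc' : c ^ 2 = -1 := by
    have h1 : (c ^ 2 - 1) * (c ^ 2 + 1) = 0 := by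
      have : (c ^ 2 - 1) * (c ^ 2 + 1) = c ^ 4 - 1 := by ring
      rw [this, hc4]; ring
    rcases mul_eq_zero.mp h1 with h2 | h2
    · exact absurd (sub_eq_zero.mp h2) hc
    · exact eq_neg_of_add_eq_zero_left h2
  rintro ⟨p, hp⟩ ⟨h1, h2⟩ h3
  rcases hp with ⟨z, y, rfl, h⟩ | ⟨y, rfl, h⟩ | ⟨z, rfl, h⟩
  · have hz : z = 0 := OnePoint.coe_injective h3
    subst hz
    have hy : y ^ 2 = 1 := by
      have : (1 + (0 : ℂ) ^ 4) * (1 + y ^ 2) = 1 + y ^ 2 := by ring
      rw [this] at h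
      have h' : y ^ 2 = (1 + y ^ 2) - 1 := by ring
      rw [h', h]; norm_num
    have h5 : (y / c) ^ 2 = -1 := by
      rw [div_pow, hc', hy]; norm_num
    have h6 := X09_sq _ h5
    have h7 : fv (OnePoint.some y) = y := rfl
    simp only [h7] at h2
    rw [h6] at h2
    exact lt_irrefl _ h2
  · exact absurd h3 (OnePoint.infty_ne_coe _)
  · exact absurd rfl h1

theorem X09_eS1 (d : ℂ) (hd : d ^ 4 = 1) : eS d ⊆ uY := by
  rintro ⟨p, hp⟩ ⟨h1, h2⟩ h3
  rcases hp with ⟨z, y, rfl, h⟩ | ⟨y, rfl, h⟩ | ⟨z, rfl, h⟩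
  · exact absurd h3 (OnePoint.coe_ne_infty _)
  · exact absurd rfl h1
  · have h5 : (z / d) ^ 4 = -1 := by
      rw [div_pow, hd, div_one]
      exact eq_neg_of_add_eq_zero_right h
    have h7 : fv (OnePoint.some z) = z := rfl
    simp only [h7] at h2
    exact X09_four _ h2 h5

theorem X09_eS2 (d : ℂ) (hd8 : d ^ 8 = 1) (hd : d ^ 4 ≠ 1) : eS d ⊆ uV := by
  have hd' : d ^ 4 = -1 := by
    have h1 : (d ^ 4 - 1) * (d ^ 4 + 1) = 0 := by
      have : (d ^ 4 - 1) * (d ^ 4 + 1) = d ^ 8 - 1 := by ring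
      rw [this, hd8]; ring
    rcases mul_eq_zero.mp h1 with h2 | h2
    · exact absurd (sub_eq_zero.mp h2) hd
    · exact eq_neg_of_add_eq_zero_left h2
  rintro ⟨p, hp⟩ ⟨h1, h2⟩ h3
  rcases hp with ⟨z, y, rfl, h⟩ | ⟨y, rfl, h⟩ | ⟨z, rfl, h⟩
  · have hz : y = 0 := OnePoint.coe_injective h3
    subst hz
    have hy : z ^ 4 = 1 := by
      have : (1 + z ^ 4) * (1 + (0 : ℂ) ^ 2) = 1 + z ^ 4 := by ring
      rw [this] at h
      have h' : z ^ 4 = (1 + z ^ 4) - 1 := by ring
      rw [h', h]; norm_num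
    have h5 : (z / d) ^ 4 = -1 := by
      rw [div_pow, hd', hy]; norm_num
    have h7 : fv (OnePoint.some z) = z := rfl
    simp only [h7] at h2
    exact X09_four _ h2 h5
  · exact absurd rfl h1
  · exact absurd h3 (OnePoint.infty_ne_coe _)

theorem X09 (h07 : X07_stmt) (h08 : X08_stmt) : X09_stmt := by
  intro cs ch hG
  obtain ⟨hC, hA⟩ := hG
  have hat : ∀ e, e ∈ atlas ℂ XT → ∃ i, ch i = e := by
    intro e he
    have : e ∈ Set.range ch := by rw [← hA]; exact he
    exact this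
  have hZ : HoloOn fZ uZ := by
    intro e he
    obtain ⟨i, rfl⟩ := hat e he
    rcases i with c | d
    · exact (h07 ch hC c _ rfl).1
    · exact (h08 ch hC d _ rfl).1
  have hN : HoloOn fN uN := by
    intro e he
    obtain ⟨i, rfl⟩ := hat e he
    rcases i with c | d
    · exact (h07 ch hC c _ rfl).2.1
    · exact (h08 ch hC d _ rfl).2.1
  have hY : HoloOn fY uY := by
    intro e he
    obtain ⟨i, rfl⟩ := hat e he
    rcases i with c | d
    · exact (h07 ch hC c _ rfl).2.2.1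
    · exact (h08 ch hC d _ rfl).2.2.1
  have hV : HoloOn fV uV := by
    intro e he
    obtain ⟨i, rfl⟩ := hat e he
    rcases i with c | d
    · exact (h07 ch hC c _ rfl).2.2.2
    · exact (h08 ch hC d _ rfl).2.2.2
  have key : ∀ i, ∃ (f : XT → ℂ) (U : Set XT), HoloOn f U ∧ (ch i).source ⊆ U ∧ ∀ p ∈ (ch i).source, ch i p = f p := by
    intro i
    rcases i with c | d
    · obtain ⟨h1, h2, h3, h4⟩ := hC.1 c
      by_cases hc : (c : ℂ) ^ 2 = 1
      · refine ⟨fZ, uZ, hZ, ?_, ?_⟩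
        · rw [h1]; exact X09_gS1 _ hc
        · intro p hp
          rw [h1] at hp
          rw [h3 p hp, gx, if_pos hc]
      · refine ⟨fN, uN, hN, ?_, ?_⟩
        · rw [h1]; exact X09_gS2 _ c.2 hc
        · intro p hp
          rw [h1] at hp
          rw [h3 p hp, gx, if_neg hc]
    · obtain ⟨h1, h2, h3, h4⟩ := hC.2 d
      by_cases hd : (d : ℂ) ^ 4 = 1
      · refine ⟨fY, uY, hY, ?_, ?_⟩
        · rw [h1]; exact X09_eS1 _ hd
        · intro p hp
          rw [h1] at hp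
          rw [h3 p hp, ex, if_pos hd]
      · refine ⟨fV, uV, hV, ?_, ?_⟩
        · rw [h1]; exact X09_eS2 _ d.2 hd
        · intro p hp
          rw [h1] at hp
          rw [h3 p hp, ex, if_neg hd]
  have c1 : Continuous (fun p : XT => p.1.1) := continuous_fst.comp continuous_subtype_val
  have c2 : Continuous (fun p : XT => p.1.2) := continuous_snd.comp continuous_subtype_val
  refine { man := ?_, oZ := ?_, oN := ?_, oY := ?_, oV := ?_, hZ := hZ, hN := hN, hY := hY, hV := hV }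
  · apply isManifold_of_contDiffOn
    intro e e' he he'
    obtain ⟨i, rfl⟩ := hat e' he'
    obtain ⟨f, U, hf, hU, hfe⟩ := key i
    have hd := hf e he
    have ho : IsOpen (e.symm ≫ₕ ch i).source := (e.symm ≫ₕ ch i).open_source
    have hd2 : DifferentiableOn ℂ (fun z => ch i (e.symm z)) (e.symm ≫ₕ ch i).source := by
      have hs : (e.symm ≫ₕ ch i).source = e.target ∩ e.symm ⁻¹' (ch i).source := by
        rw [OpenPartialHomeomorph.trans_source]; rfl
      rw [hs]
      refine (hd.mono (Set.inter_subset_inter_right _ (Set.preimage_mono hU))).congr ?_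
      intro z hz
      exact hfe _ hz.2
    have hd3 : ContDiffOn ℂ ω (ch i ∘ e.symm) (e.symm ≫ₕ ch i).source :=
      hd2.contDiffOn ho
    simpa using hd3
  · exact isOpen_ne.preimage c1
  · exact isOpen_ne.preimage c1
  · exact isOpen_ne.preimage c2
  · exact isOpen_ne.preimage c2

end Pool.Agent.DL
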