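import Pool.Agent.helper67.DL.SpecX

/-! # Project dl, module X18: the forms vanish nowhere -/

namespace Pool.Agent.DL

open Matrix Complex
open scoped ComplexOrder Manifold ContDiff

theorem X18_dd (e : OpenPartialHomeomorph XT ℂ) (f g : XT → ℂ) (φ : ℂ → ℂ) (h1 : ∀ p ∈ e.source, e p = f p)
    (h2 : ∀ p, g p = φ (f p)) (p : XT) (hp : p ∈ e.source) : dd g e p = deriv φ (e p) := by
  unfold dd
  apply Filter.EventuallyEq.deriv_eq
  filter_upwards [e.open_target.mem_nhds (e.map_source hp)] with z hz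
  rw [h2, ← h1 _ (e.map_target hz), e.right_inv hz]

theorem X18_fv (p : P1) : fv p = (iv p)⁻¹ := by
  induction p using OnePoint.rec with
  | infty => simp [fv, iv]
  | coe z => simp [fv, iv]

theorem X18_iv (p : P1) : iv p = (fv p)⁻¹ := by
  rw [X18_fv, inv_inv]

theorem X18_sq (w : ℂ) (h : w ^ 2 = -1) : w.re = 0 := by
  have h1 : (w - I) * (w + I) = 0 := by
    have : (w - I) * (w + I) = w ^ 2 - I ^ 2 := by ring
    rw [this, h, I_sq]; ring
  rcases mul_eq_zero.mp h1 with h2 | h2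
  · rw [sub_eq_zero.mp h2]; simp
  · rw [eq_neg_of_add_eq_zero_left h2]; simp

theorem X18_gS1 (c : ℂ) (hc : c ^ 2 = 1) : gS c ⊆ uZ := by
  rintro ⟨p, hp⟩ ⟨h1, h2⟩ h3
  rcases hp with ⟨z, y, rfl, h⟩ | ⟨y, rfl, h⟩ | ⟨z, rfl, h⟩
  · exact absurd h3 (OnePoint.coe_ne_infty _)
  · have h5 : (y / c) ^ 2 = -1 := by
      rw [div_pow, hc, div_one]
      exact eq_neg_of_add_eq_zero_right h
    have h6 := X18_sq _ h5
    have h7 : fv (OnePoint.some y) = y := rfl
    simp only [h7] at h2
    rw [h6] at h2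
    exact lt_irrefl _ h2
  · exact absurd h3 (OnePoint.coe_ne_infty _)

theorem X18_gS2 (c : ℂ) (hc4 : c ^ 4 = 1) (hc : c ^ 2 ≠ 1) : gS c ⊆ uN := by
  have hc' : c ^ 2 = -1 := by
    have h1 : (c ^ 2 - 1) * (c ^ 2 + 1) = 0 := by
      have : (c ^ 2 - 1) * (c ^ 2 + 1) = c ^ 4 - 1 := by ring
      rw [this, hc4]; ring
    rcases mul_eq_zero.mp h1 with h2 | h2
    · exact absurd (sub_eq_zero.mp h2) hc
    · exact eq_neg_of_add_eq_zero_left h2
  rintro ⟨p, hp⟩ ⟨h1, h2⟩ h3
  rcases hp with ⟨z, y, rfl, h⟩ | ⟨y, rfl, h⟩ | ⟨z, rfl, h⟩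
  · have hz : z = 0 := OnePoint.coe_injective h3
    subst hz
    have hy : y ^ 2 = 1 := by
      have : (1 + (0 : ℂ) ^ 4) * (1 + y ^ 2) = 1 + y ^ 2 := by ring
      rw [this] at h
      have h' : y ^ 2 = (1 + y ^ 2) - 1 := by ring
      rw [h', h]; norm_num
    have h5 : (y / c) ^ 2 = -1 := by
      rw [div_pow, hc', hy]; norm_num
    have h6 := X18_sq _ h5
    have h7 : fv (OnePoint.some y) = y := rfl
    simp only [h7] at h2
    rw [h6] at h2
    exact lt_irrefl _ h2
  · exact absurd h3 (OnePoint.infty_ne_coe _)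
  · exact absurd rfl h1

theorem X18_c (y : ℂ) (hy : y ≠ 0) : ∃ c : ℂ, c ^ 4 = 1 ∧ 0 < (y / c).re := by
  by_cases h1 : 0 < y.re
  · exact ⟨1, by norm_num, by simpa using h1⟩
  by_cases h2 : y.re < 0
  · refine ⟨-1, by norm_num, ?_⟩
    rw [div_neg, div_one, neg_re]; linarith
  have h0 : y.re = 0 := by linarith
  have h3 : y.im ≠ 0 := by
    intro h
    exact hy (Complex.ext h0 h)
  rcases lt_or_gt_of_ne h3 with h4 | h4
  · refine ⟨-I, ?_, ?_⟩
    · rw [neg_pow, I_pow_four]; norm_num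
    · rw [div_neg, div_I, neg_neg]
      simp; exact h4
  · refine ⟨I, I_pow_four, ?_⟩
    rw [div_I]
    simp; exact h4

theorem X18 : X18_stmt := by
  intro cs ch hG h0 h1
  obtain ⟨hC, hA⟩ := hG
  have hat : ∀ i, ch i ∈ atlas ℂ XT := by
    intro i
    have : ch i ∈ cs.atlas := by rw [hA]; exact ⟨i, rfl⟩
    exact this
  have tr0 : ∀ x ∈ uZ, ∀ i, x ∈ (ch i).source → eta0 (ch i) x ≠ 0 → eta0 (chartAt ℂ x) x ≠ 0 := by
    intro x hx i hi hne h
    have := h0.2 (ch i) (hat i) (chartAt ℂ x) (chart_mem_atlas ℂ x) x hx hi (mem_chart_source ℂ x)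
    rw [h, zero_mul] at this
    exact hne this
  have tr1 : ∀ x ∈ uN, ∀ i, x ∈ (ch i).source → eta1 (ch i) x ≠ 0 → eta1 (chartAt ℂ x) x ≠ 0 := by
    intro x hx i hi hne h
    have := h1.2 (ch i) (hat i) (chartAt ℂ x) (chart_mem_atlas ℂ x) x hx hi (mem_chart_source ℂ x)
    rw [h, zero_mul] at this
    exact hne this
  have key : ∀ x : XT, ∃ i, x ∈ (ch i).source ∧ (x ∈ uZ → eta0 (ch i) x ≠ 0) ∧ (x ∈ uN → eta1 (ch i) x ≠ 0) := by
    intro x
    by_cases hinf : x.1.2 = OnePoint.infty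
    · -- `Y = ∞`
      have hz : ∃ z : ℂ, x.1.1 = OnePoint.some z ∧ 1 + z ^ 4 = 0 := by
        obtain ⟨p, hp⟩ := x
        rcases hp with ⟨z, y, rfl, h⟩ | ⟨y, rfl, h⟩ | ⟨z, rfl, h⟩
        · exact absurd hinf (OnePoint.coe_ne_infty _)
        · exact absurd hinf (OnePoint.coe_ne_infty _)
        · exact ⟨z, rfl, h⟩
      obtain ⟨z, hz, hz4⟩ := hz
      have hz4' : z ^ 4 = -1 := eq_neg_of_add_eq_zero_right hz4
      have hz0 : z ≠ 0 := by
        rintro rfl
        norm_num at hz4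
      have hd8 : z ^ 8 = 1 := by
        have : z ^ 8 = (z ^ 4) ^ 2 := by ring
        rw [this, hz4']; norm_num
      obtain ⟨s1, s2, s3, s4⟩ := hC.2 ⟨z, hd8⟩
      have hfv : fv x.1.1 = z := by rw [hz]; rfl
      have hxs : x ∈ eS z := by
        refine ⟨by rw [hz]; exact OnePoint.coe_ne_infty _, ?_⟩
        rw [hfv, div_self hz0]; simp
      have hxs' : x ∈ (ch (Sum.inr ⟨z, hd8⟩)).source := by rw [s1]; exact hxs
      have hne : z ^ 4 ≠ 1 := by rw [hz4']; norm_num
      have hdd : dd fV (ch (Sum.inr ⟨z, hd8⟩)) x = 1 := by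
        rw [X18_dd (ch (Sum.inr ⟨z, hd8⟩)) fV fV (fun z => z) ?_ (fun _ => rfl) x hxs']
        · simp
        · intro p hp
          rw [s1] at hp
          rw [s3 p hp, ex, if_neg hne]
      have hfZ : fZ x = z := hfv
      have hfN : fN x = z⁻¹ := by
        have : fN x = iv x.1.1 := rfl
        rw [this, X18_iv, hfv]
      have hfV : fV x = 0 := by
        have : fV x = iv x.1.2 := rfl
        rw [this, hinf]; rfl
      refine ⟨_, hxs', fun _ => ?_, fun _ => ?_⟩
      · rw [eta0, if_pos hinf, hdd, hfZ, hfV]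
        simp [hz0]
      · rw [eta1, if_pos hinf, hdd, hfN, hfV]
        simp [hz0]
    by_cases hzero : x.1.2 = OnePoint.some 0
    · -- `Y = 0`
      have hz : ∃ z : ℂ, x.1.1 = OnePoint.some z ∧ z ^ 4 = 1 := by
        obtain ⟨p, hp⟩ := x
        rcases hp with ⟨z, y, rfl, h⟩ | ⟨y, rfl, h⟩ | ⟨z, rfl, h⟩
        · have hy : y = 0 := OnePoint.coe_injective hzero
          subst hy
          refine ⟨z, rfl, ?_⟩
          have : (1 + z ^ 4) * (1 + (0 : ℂ) ^ 2) = 1 + z ^ 4 := by ring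
          rw [this] at h
          have h' : z ^ 4 = (1 + z ^ 4) - 1 := by ring
          rw [h', h]; norm_num
        · have hy : y = 0 := OnePoint.coe_injective hzero
          subst hy
          norm_num at h
        · exact absurd hzero (OnePoint.infty_ne_coe _)
      obtain ⟨z, hz, hz4⟩ := hz
      have hz0 : z ≠ 0 := by
        rintro rfl
        norm_num at hz4
      have hd8 : z ^ 8 = 1 := by
        have : z ^ 8 = (z ^ 4) ^ 2 := by ring
        rw [this, hz4]; norm_num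
      obtain ⟨s1, s2, s3, s4⟩ := hC.2 ⟨z, hd8⟩
      have hfv : fv x.1.1 = z := by rw [hz]; rfl
      have hxs : x ∈ eS z := by
        refine ⟨by rw [hz]; exact OnePoint.coe_ne_infty _, ?_⟩
        rw [hfv, div_self hz0]; simp
      have hxs' : x ∈ (ch (Sum.inr ⟨z, hd8⟩)).source := by rw [s1]; exact hxs
      have hdd : dd fY (ch (Sum.inr ⟨z, hd8⟩)) x = 1 := by
        rw [X18_dd (ch (Sum.inr ⟨z, hd8⟩)) fY fY (fun z => z) ?_ (fun _ => rfl) x hxs']
        · simp
        · intro p hp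
          rw [s1] at hp
          rw [s3 p hp, ex, if_pos hz4]
      have hfZ : fZ x = z := hfv
      have hfN : fN x = z⁻¹ := by
        have : fN x = iv x.1.1 := rfl
        rw [this, X18_iv, hfv]
      have hfY : fY x = 0 := by
        have : fY x = fv x.1.2 := rfl
        rw [this, hzero]; rfl
      refine ⟨_, hxs', fun _ => ?_, fun _ => ?_⟩
      · rw [eta0, if_neg hinf, if_pos hzero, hdd, hfZ, hfY]
        simp [hz0]
      · rw [eta1, if_neg hinf, if_pos hzero, hdd, hfN, hfY]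
        simp [hz0]
    · -- `Y ≠ 0, ∞`
      have hy : ∃ y : ℂ, x.1.2 = OnePoint.some y ∧ y ≠ 0 ∧ 1 + fZ x ^ 4 ≠ 0 ∧ 1 + fN x ^ 4 ≠ 0 := by
        obtain ⟨p, hp⟩ := x
        rcases hp with ⟨z, y, rfl, h⟩ | ⟨y, rfl, h⟩ | ⟨z, rfl, h⟩
        · have hz : 1 + z ^ 4 ≠ 0 := by
            intro h'
            rw [h', zero_mul] at h
            norm_num at h
          refine ⟨y, rfl, fun h' => hzero (congrArg OnePoint.some h'), hz, ?_⟩
          have h2 : fN ⟨(OnePoint.some z, OnePoint.some y), Or.inl ⟨z, y, rfl, h⟩⟩ = z⁻¹ := rfl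
          rw [h2]
          by_cases hz0 : z = 0
          · rw [hz0]; norm_num
          · intro h3
            apply hz
            have : 1 + z ^ 4 = z ^ 4 * (1 + z⁻¹ ^ 4) := by
              field_simp; ring
            rw [this, h3, mul_zero]
        · refine ⟨y, rfl, fun h' => hzero (congrArg OnePoint.some h'), ?_, ?_⟩
          · have h2 : fZ ⟨(OnePoint.infty, OnePoint.some y), Or.inr (Or.inl ⟨y, rfl, h⟩)⟩ = 0 := rfl
            rw [h2]; norm_num
          · have h2 : fN ⟨(OnePoint.infty, OnePoint.some y), Or.inr (Or.inl ⟨y, rfl, h⟩)⟩ = 0 := rfl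
            rw [h2]; norm_num
        · exact absurd rfl hinf
      obtain ⟨y, hy, hy0, hd0, hd1⟩ := hy
      obtain ⟨c, hc4, hc⟩ := X18_c y hy0
      have hfv : fv x.1.2 = y := by rw [hy]; rfl
      have hfY : fY x = y := hfv
      have hxs : x ∈ gS c := ⟨hinf, by rw [hfv]; exact hc⟩
      obtain ⟨s1, s2, s3, s4⟩ := hC.1 ⟨c, hc4⟩
      have hxs' : x ∈ (ch (Sum.inl ⟨c, hc4⟩)).source := by rw [s1]; exact hxs
      have hddne : (x ∈ uZ → dd fZ (ch (Sum.inl ⟨c, hc4⟩)) x ≠ 0) ∧
          (x ∈ uN → dd fN (ch (Sum.inl ⟨c, hc4⟩)) x ≠ 0) := by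
        have hZ0 : x ∈ uZ → x ∈ uN → fZ x ≠ 0 := by
          intro hZ hN h
          have h2 : fZ x = fv x.1.1 := rfl
          rw [h2] at h
          have hZ' : x.1.1 ≠ OnePoint.infty := hZ
          have hN' : x.1.1 ≠ OnePoint.some 0 := hN
          generalize x.1.1 = p at h hZ' hN'
          induction p using OnePoint.rec with
          | infty => exact hZ' rfl
          | coe w =>
            have : fv (OnePoint.some w) = w := rfl
            rw [this] at h
            exact hN' (by rw [h])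
        by_cases hc2 : c ^ 2 = 1
        · have hchart : ∀ p ∈ (ch (Sum.inl ⟨c, hc4⟩)).source, ch (Sum.inl ⟨c, hc4⟩) p = fZ p := by
            intro p hp
            rw [s1] at hp
            rw [s3 p hp, gx, if_pos hc2]
          have hxZ : x ∈ uZ := X18_gS1 c hc2 hxs
          constructor
          · intro _
            rw [X18_dd _ fZ fZ (fun z => z) hchart (fun _ => rfl) x hxs']
            simp
          · intro hxN
            rw [X18_dd _ fZ fN (fun z => z⁻¹) hchart (fun p => X18_iv _) x hxs', deriv_inv, hchart x hxs']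
            exact neg_ne_zero.mpr (inv_ne_zero (pow_ne_zero _ (hZ0 hxZ hxN)))
        · have hchart : ∀ p ∈ (ch (Sum.inl ⟨c, hc4⟩)).source, ch (Sum.inl ⟨c, hc4⟩) p = fN p := by
            intro p hp
            rw [s1] at hp
            rw [s3 p hp, gx, if_neg hc2]
          have hxN : x ∈ uN := X18_gS2 c hc4 hc2 hxs
          constructor
          · intro hxZ
            rw [X18_dd _ fN fZ (fun z => z⁻¹) hchart (fun p => X18_fv _) x hxs', deriv_inv, hchart x hxs']
            have : fN x ≠ 0 := by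
              have h3 : fN x = (fZ x)⁻¹ := X18_iv _
              rw [h3]
              exact inv_ne_zero (hZ0 hxZ hxN)
            exact neg_ne_zero.mpr (inv_ne_zero (pow_ne_zero _ this))
          · intro _
            rw [X18_dd _ fN fN (fun z => z) hchart (fun _ => rfl) x hxs']
            simp
      refine ⟨_, hxs', fun hxZ => ?_, fun hxN => ?_⟩
      · rw [eta0, if_neg hinf, if_neg hzero, hfY]
        exact div_ne_zero (hddne.1 hxZ) (mul_ne_zero hd0 hy0)
      · rw [eta1, if_neg hinf, if_neg hzero, hfY]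
        exact div_ne_zero (neg_ne_zero.mpr (hddne.2 hxN)) (mul_ne_zero hd1 hy0)
  constructor
  · intro x hx
    obtain ⟨i, hi, k0, k1⟩ := key x
    exact tr0 x hx i hi (k0 hx)
  · intro x hx
    obtain ⟨i, hi, k0, k1⟩ := key x
    exact tr1 x hx i hi (k1 hx)

end Pool.Agent.DL
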