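import Pool.Agent.helper67.DL.SpecX
import Pool.Agent.helper7.DL.X09

/-! # Project dl, module X19: the involution -/

namespace Pool.Agent.DL

open Matrix Complex
open scoped ComplexOrder Manifold ContDiff

theorem X19_fv (p : P1) : fv (ngP p) = -fv p := by
  induction p using OnePoint.rec with
  | infty => simp [fv, ngP]
  | coe z => simp [fv, ngP]

theorem X19_iv (p : P1) : iv (ngP p) = -iv p := by
  induction p using OnePoint.rec with
  | infty => simp [iv, ngP]
  | coe z => simp [iv, ngP, inv_neg]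

theorem X19_inf (p : P1) : ngP p = OnePoint.infty ↔ p = OnePoint.infty := by
  induction p using OnePoint.rec with
  | infty => simp [ngP]
  | coe z => simp [ngP]

theorem X19_zero (p : P1) : ngP p = OnePoint.some 0 ↔ p = OnePoint.some 0 := by
  induction p using OnePoint.rec with
  | infty => simp [ngP]
  | coe z =>
    have : ngP (OnePoint.some z) = OnePoint.some (-z) := rfl
    rw [this]
    constructor
    · intro h
      have h2 : -z = 0 := OnePoint.coe_injective h
      rw [neg_eq_zero.mp h2]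
    · intro h
      have h2 : z = 0 := OnePoint.coe_injective h
      rw [h2, neg_zero]

theorem X19 (h01 : X01_stmt) : X19_stmt := by
  have hcn : Continuous ngP := h01.2.2.2.1
  have hf : ∀ x, fZ (tauX x) = -fZ x ∧ fN (tauX x) = -fN x ∧ fY (tauX x) = fY x ∧ fV (tauX x) = fV x :=
    fun x => ⟨X19_fv _, X19_iv _, rfl, rfl⟩
  have hu : ∀ x, (tauX x ∈ uZ ↔ x ∈ uZ) ∧ (tauX x ∈ uN ↔ x ∈ uN) ∧ (tauX x ∈ uY ↔ x ∈ uY) ∧
      (tauX x ∈ uV ↔ x ∈ uV) :=
    fun x => ⟨not_congr (X19_inf _), not_congr (X19_zero _), Iff.rfl, Iff.rfl⟩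
  refine ⟨?_, hf, hu, ?_⟩
  · refine Continuous.subtype_mk ?_ _
    exact (hcn.comp (continuous_fst.comp continuous_subtype_val)).prodMk
      (continuous_snd.comp continuous_subtype_val)
  · intro cs ch hG hH e he e' he'
    obtain ⟨hC, hA⟩ := hG
    have hat : ∀ e, e ∈ atlas ℂ XT → ∃ i, ch i = e := by
      intro e he
      have : e ∈ Set.range ch := by rw [← hA]; exact he
      exact this
    obtain ⟨i, rfl⟩ := hat e' he'
    have key : ∃ (f : XT → ℂ) (U : Set XT) (ε : ℂ), HoloOn f U ∧ (ch i).source ⊆ U ∧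
        (∀ p ∈ (ch i).source, ch i p = f p) ∧ (∀ x, f (tauX x) = ε * f x) ∧ ∀ x, tauX x ∈ U → x ∈ U := by
      rcases i with c | d
      · obtain ⟨h1, h2, h3, h4⟩ := hC.1 c
        by_cases hc : (c : ℂ) ^ 2 = 1
        · refine ⟨fZ, uZ, -1, hH.hZ, ?_, ?_, ?_, fun x hx => (hu x).1.mp hx⟩
          · rw [h1]; exact X09_gS1 _ hc
          · intro p hp
            rw [h1] at hp
            rw [h3 p hp, gx, if_pos hc]
          · intro x; rw [(hf x).1]; ring
        · refine ⟨fN, uN, -1, hH.hN, ?_, ?_, ?_, fun x hx => (hu x).2.1.mp hx⟩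
          · rw [h1]; exact X09_gS2 _ c.2 hc
          · intro p hp
            rw [h1] at hp
            rw [h3 p hp, gx, if_neg hc]
          · intro x; rw [(hf x).2.1]; ring
      · obtain ⟨h1, h2, h3, h4⟩ := hC.2 d
        by_cases hd : (d : ℂ) ^ 4 = 1
        · refine ⟨fY, uY, 1, hH.hY, ?_, ?_, ?_, fun x hx => (hu x).2.2.1.mp hx⟩
          · rw [h1]; exact X09_eS1 _ hd
          · intro p hp
            rw [h1] at hp
            rw [h3 p hp, ex, if_pos hd]
          · intro x; rw [(hf x).2.2.1]; ring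
        · refine ⟨fV, uV, 1, hH.hV, ?_, ?_, ?_, fun x hx => (hu x).2.2.2.mp hx⟩
          · rw [h1]; exact X09_eS2 _ d.2 hd
          · intro p hp
            rw [h1] at hp
            rw [h3 p hp, ex, if_neg hd]
          · intro x; rw [(hf x).2.2.2]; ring
    obtain ⟨f, U, ε, k1, k2, k3, k4, k5⟩ := key
    have hd := (k1 e he).const_mul ε
    refine (hd.mono ?_).congr ?_
    · rintro z ⟨hz1, hz2⟩
      exact ⟨hz1, k5 _ (k2 hz2)⟩
    · rintro z ⟨hz1, hz2⟩
      have : ch i (tauX (e.symm z)) = f (tauX (e.symm z)) := k3 _ hz2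
      show ch i (tauX (e.symm z)) = ε * f (e.symm z)
      rw [this, k4]

end Pool.Agent.DL
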